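import Mathlib

set_option autoImplicit false

namespace Pool.Agent.Results.MP_130315_lc.Uncountable

/-- A signature: predicate and function symbols with arities; function symbols may be rigid. -/
structure Signature where
  Pred : Type
  predAr : Pred → ℕ
  Func : Type
  funcAr : Func → ℕ
  rigid : Func → Prop

/-- Terms; variables are natural numbers. -/
inductive Term (σ : Signature) : Type
  | var : ℕ → Term σ
  | app : (f : σ.Func) → (Fin (σ.funcAr f) → Term σ) → Term σ

/-- Formulas of InqBQ. -/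
inductive Formula (σ : Signature) : Type
  | pred : (p : σ.Pred) → (Fin (σ.predAr p) → Term σ) → Formula σ
  | eq : Term σ → Term σ → Formula σ
  | bot : Formula σ
  | and : Formula σ → Formula σ → Formula σ
  | idisj : Formula σ → Formula σ → Formula σ
  | imp : Formula σ → Formula σ → Formula σ
  | all : ℕ → Formula σ → Formula σ
  | iex : ℕ → Formula σ → Formula σ

/-- Models `(W, D, I, ∼)` of InqBQ. -/
structure Model (σ : Signature) where
  W : Type
  D : Type
  neW : Nonempty W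
  neD : Nonempty D
  P : W → (p : σ.Pred) → (Fin (σ.predAr p) → D) → Prop
  F : W → (f : σ.Func) → (Fin (σ.funcAr f) → D) → D
  rigid_eq : ∀ f, σ.rigid f → ∀ w w', F w f = F w' f
  sim : W → D → D → Prop
  sim_equiv : ∀ w, Equivalence (sim w)
  P_congr : ∀ w p a b, (∀ i, sim w (a i) (b i)) → (P w p a ↔ P w p b)
  F_congr : ∀ w f a b, (∀ i, sim w (a i) (b i)) → sim w (F w f a) (F w f b)

/-- value of a term at a world under an assignment -/
def Term.val {σ : Signature} (M : Model σ) (w : M.W) (g : ℕ → M.D) : Term σ → M.D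
  | .var x => g x
  | .app f ts => M.F w f (fun i => (ts i).val M w g)

/-- support of a formula at a state under an assignment -/
def Supports {σ : Signature} (M : Model σ) : Formula σ → Set M.W → (ℕ → M.D) → Prop
  | .pred p ts, s, g => ∀ w ∈ s, M.P w p (fun i => (ts i).val M w g)
  | .eq t t', s, g => ∀ w ∈ s, M.sim w (t.val M w g) (t'.val M w g)
  | .bot, s, _ => s = ∅
  | .and φ ψ, s, g => Supports M φ s g ∧ Supports M ψ s g
  | .idisj φ ψ, s, g => Supports M φ s g ∨ Supports M ψ s g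
  | .imp φ ψ, s, g => ∀ t, t ⊆ s → Supports M φ t g → Supports M ψ t g
  | .all x φ, s, g => ∀ d, Supports M φ s (Function.update g x d)
  | .iex x φ, s, g => ∃ d, Supports M φ s (Function.update g x d)

inductive Pr : Type
  | N | A | B | E

inductive Fn : Type
  | z | S

abbrev sg : Signature where
  Pred := Pr
  predAr := fun p => match p with | .E => 2 | _ => 1
  Func := Fn
  funcAr := fun f => match f with | .z => 0 | .S => 1
  rigid := fun _ => True

def tz : Term sg := .app Fn.z (fun i => Fin.elim0 i)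
def tS (t : Term sg) : Term sg := .app Fn.S (fun _ => t)
def fN (t : Term sg) : Formula sg := .pred Pr.N (fun _ => t)
def fA (t : Term sg) : Formula sg := .pred Pr.A (fun _ => t)
def fB (t : Term sg) : Formula sg := .pred Pr.B (fun _ => t)
def fE (t u : Term sg) : Formula sg := .pred Pr.E (![t, u] : Fin 2 → Term sg)
def neg (φ : Formula sg) : Formula sg := .imp φ .bot
def x0 : Term sg := .var 0
def x1 : Term sg := .var 1

def ps1 : Formula sg := .all 0 (.all 1 (.idisj (.eq x0 x1) (neg (.eq x0 x1))))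
def ps2 : Formula sg := .all 0 (.all 1 (.idisj (fE x0 x1) (neg (fE x0 x1))))
def ps3 : Formula sg := .and (fN tz) (.all 0 (.imp (fN x0) (fN (tS x0))))
def ps4 : Formula sg := .and (.all 0 (neg (.eq (tS x0) tz)))
  (.all 0 (.all 1 (.imp (.eq (tS x0) (tS x1)) (.eq x0 x1))))
def ps5 : Formula sg := .and (.all 0 (.all 1 (.imp (.and (fA x0) (fA x1)) (.eq x0 x1))))
  (.and (.all 0 (.all 1 (.imp (.and (fB x0) (fB x1)) (.eq x0 x1))))
    (.all 0 (.all 1 (neg (.and (fA x0) (fB x1))))))
def ps6 : Formula sg := .imp (.all 0 (.idisj (neg (fA x0)) (neg (fB x0))))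
  (.iex 1 (.all 0 (.and (.imp (fA x0) (fE x0 x1)) (.imp (fB x0) (neg (fE x0 x1))))))
def chi : Formula sg := .iex 0 (.and (fN x0) (.idisj (neg (fA x0)) (neg (fB x0))))
def phi : Formula sg :=
  .imp (.and ps1 (.and ps2 (.and ps3 (.and ps4 (.and ps5 ps6))))) chi

section sem
variable (M : Model sg)

def vz (w : M.W) : M.D := M.F w Fn.z (fun i => Fin.elim0 i)
def vS (w : M.W) (a : M.D) : M.D := M.F w Fn.S (fun _ => a)
def pN (w : M.W) (a : M.D) : Prop := M.P w Pr.N (fun _ => a)
def pA (w : M.W) (a : M.D) : Prop := M.P w Pr.A (fun _ => a)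
def pB (w : M.W) (a : M.D) : Prop := M.P w Pr.B (fun _ => a)
def pE (w : M.W) (a b : M.D) : Prop := M.P w Pr.E (![a, b] : Fin 2 → M.D)

theorem val_z (w : M.W) (g : ℕ → M.D) : tz.val M w g = vz M w := by
  simp only [tz, Term.val, vz]
  congr 1
  funext i
  exact Fin.elim0 i
theorem val_S (w : M.W) (g : ℕ → M.D) (t : Term sg) : (tS t).val M w g = vS M w (t.val M w g) := rfl
theorem val_0 (w : M.W) (g : ℕ → M.D) : x0.val M w g = g 0 := rfl
theorem val_1 (w : M.W) (g : ℕ → M.D) : x1.val M w g = g 1 := rfl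
theorem s_N (t : Term sg) (s : Set M.W) (g : ℕ → M.D) :
    Supports M (fN t) s g ↔ ∀ w ∈ s, pN M w (t.val M w g) := Iff.rfl
theorem s_A (t : Term sg) (s : Set M.W) (g : ℕ → M.D) :
    Supports M (fA t) s g ↔ ∀ w ∈ s, pA M w (t.val M w g) := Iff.rfl
theorem s_B (t : Term sg) (s : Set M.W) (g : ℕ → M.D) :
    Supports M (fB t) s g ↔ ∀ w ∈ s, pB M w (t.val M w g) := Iff.rfl
theorem s_E (t u : Term sg) (s : Set M.W) (g : ℕ → M.D) :
    Supports M (fE t u) s g ↔ ∀ w ∈ s, pE M w (t.val M w g) (u.val M w g) := by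
  simp only [fE, Supports, pE]
  refine forall₂_congr fun w _ => ?_
  have : (fun i => ((![t, u] : Fin 2 → Term sg) i).val M w g) =
      (![t.val M w g, u.val M w g] : Fin 2 → M.D) := by
    funext i
    fin_cases i <;> rfl
  exact this ▸ Iff.rfl

theorem imp_flat {α : Type} (s : Set α) (p q : α → Prop) :
    (∀ t : Set α, t ⊆ s → (∀ w ∈ t, p w) → ∀ w ∈ t, q w) ↔ ∀ w ∈ s, p w → q w := by
  constructor
  · intro h w hw hp
    exact h {w} (by simpa using hw) (by simpa using hp) w rfl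
  · intro h t ht hp w hw
    exact h w (ht hw) (hp w hw)

theorem neg_flat {α : Type} (s : Set α) (p : α → Prop) :
    (∀ t : Set α, t ⊆ s → (∀ w ∈ t, p w) → t = ∅) ↔ ∀ w ∈ s, ¬ p w := by
  constructor
  · intro h w hw hp
    have := h {w} (by simpa using hw) (by simpa using hp)
    simp at this
  · intro h t ht hp
    exact Set.eq_empty_of_forall_notMem fun w hw => h w (ht hw) (hp w hw)

theorem and_flat {α : Type} (s : Set α) (p q : α → Prop) :
    ((∀ w ∈ s, p w) ∧ ∀ w ∈ s, q w) ↔ ∀ w ∈ s, p w ∧ q w :=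
  ⟨fun h w hw => ⟨h.1 w hw, h.2 w hw⟩, fun h => ⟨fun w hw => (h w hw).1, fun w hw => (h w hw).2⟩⟩

theorem s1 (s : Set M.W) (g : ℕ → M.D) : Supports M ps1 s g ↔
    ∀ a b, (∀ w ∈ s, M.sim w a b) ∨ ∀ w ∈ s, ¬ M.sim w a b := by
  simp [ps1, neg, Supports, val_0, val_1, neg_flat]

theorem s2 (s : Set M.W) (g : ℕ → M.D) : Supports M ps2 s g ↔
    ∀ a b, (∀ w ∈ s, pE M w a b) ∨ ∀ w ∈ s, ¬ pE M w a b := by
  simp [ps2, neg, Supports, s_E, val_0, val_1, neg_flat]

theorem s3 (s : Set M.W) (g : ℕ → M.D) : Supports M ps3 s g ↔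
    (∀ w ∈ s, pN M w (vz M w)) ∧ ∀ a, ∀ w ∈ s, pN M w a → pN M w (vS M w a) := by
  simp [ps3, Supports, s_N, val_0, val_z, val_S, imp_flat]

theorem s4 (s : Set M.W) (g : ℕ → M.D) : Supports M ps4 s g ↔
    (∀ a, ∀ w ∈ s, ¬ M.sim w (vS M w a) (vz M w)) ∧
      ∀ a b, ∀ w ∈ s, M.sim w (vS M w a) (vS M w b) → M.sim w a b := by
  simp [ps4, neg, Supports, val_0, val_1, val_z, val_S, imp_flat, neg_flat]

theorem s5 (s : Set M.W) (g : ℕ → M.D) : Supports M ps5 s g ↔
    (∀ a b, ∀ w ∈ s, pA M w a ∧ pA M w b → M.sim w a b) ∧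
    (∀ a b, ∀ w ∈ s, pB M w a ∧ pB M w b → M.sim w a b) ∧
    (∀ a b, ∀ w ∈ s, ¬ (pA M w a ∧ pB M w b)) := by
  simp only [ps5, neg, Supports, s_A, s_B, val_0, val_1, and_flat, imp_flat, neg_flat]
  simp

theorem s6 (s : Set M.W) (g : ℕ → M.D) : Supports M ps6 s g ↔
    ∀ t, t ⊆ s → (∀ a, (∀ w ∈ t, ¬ pA M w a) ∨ ∀ w ∈ t, ¬ pB M w a) →
      ∃ d, ∀ a, (∀ w ∈ t, pA M w a → pE M w a d) ∧ ∀ w ∈ t, pB M w a → ¬ pE M w a d := by
  simp only [ps6, neg, Supports, s_A, s_B, s_E, val_0, val_1, imp_flat, neg_flat]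
  simp

theorem schi (s : Set M.W) (g : ℕ → M.D) : Supports M chi s g ↔
    ∃ a, (∀ w ∈ s, pN M w a) ∧ ((∀ w ∈ s, ¬ pA M w a) ∨ ∀ w ∈ s, ¬ pB M w a) := by
  simp only [chi, neg, Supports, s_A, s_B, s_N, val_0, neg_flat]
  simp

theorem valid_countable [Countable M.D] (s0 : Set M.W) (g : ℕ → M.D) : Supports M phi s0 g := by
  intro s _ ⟨h1, h2, h3, h4, h5, h6⟩
  rw [s1] at h1
  rw [s2] at h2
  rw [s3] at h3
  rw [s4] at h4
  rw [s5] at h5
  rw [s6] at h6
  rw [schi]
  by_contra hc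
  push Not at hc
  obtain ⟨w1⟩ := M.neW
  have rz : ∀ w, vz M w = vz M w1 := fun w => by
    simp only [vz, M.rigid_eq Fn.z trivial w w1]
  have rS : ∀ w, vS M w = vS M w1 := fun w => by
    funext a; simp only [vS, M.rigid_eq Fn.S trivial w w1]
  let x : ℕ → M.D := fun i => (vS M w1)^[i] (vz M w1)
  have xs : ∀ i, x (i + 1) = vS M w1 (x i) := fun i => Function.iterate_succ_apply' _ _ _
  have hN : ∀ i, ∀ w ∈ s, pN M w (x i) := by
    intro i w hw
    induction i with
    | zero => have := h3.1 w hw; rwa [rz] at this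
    | succ i ih => have := h3.2 _ w hw ih; rwa [rS, ← xs] at this
  have hd : ∀ w ∈ s, ∀ i j, M.sim w (x i) (x j) → i = j := by
    intro w hw i
    induction i with
    | zero =>
      intro j h
      cases j with
      | zero => rfl
      | succ j =>
        have := h4.1 (x j) w hw
        rw [rS, rz, ← xs] at this
        exact absurd ((M.sim_equiv w).symm h) this
    | succ i ih =>
      intro j h
      cases j with
      | zero =>
        have := h4.1 (x i) w hw
        rw [rS, rz, ← xs] at this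
        exact absurd h this
      | succ j =>
        have := h4.2 (x i) (x j) w hw
        rw [rS, ← xs, ← xs] at this
        rw [ih j (this h)]
  choose u hu hu' using fun i => (hc (x i) (hN i)).1
  choose v hv hv' using fun i => (hc (x i) (hN i)).2
  have key : ∀ X : Set ℕ, ∃ d, ∀ i, pE M (u 0) (x i) d ↔ i ∈ X := by
    intro X
    obtain ⟨d, hd'⟩ := h6 (u '' X ∪ v '' Xᶜ) (by
      rintro _ (⟨i, _, rfl⟩ | ⟨i, _, rfl⟩)
      · exact hu i
      · exact hv i) (by
      intro a
      by_contra hcon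
      push Not at hcon
      obtain ⟨⟨w, hw, ha⟩, ⟨w', hw', hb⟩⟩ := hcon
      rcases hw with ⟨i, hi, rfl⟩ | ⟨i, _, rfl⟩
      · rcases hw' with ⟨j, _, rfl⟩ | ⟨j, hj, rfl⟩
        · exact h5.2.2 _ _ _ (hu j) ⟨hu' j, hb⟩
        · have e1 := h5.1 _ _ _ (hu i) ⟨hu' i, ha⟩
          have e2 := h5.2.1 _ _ _ (hv j) ⟨hb, hv' j⟩
          have e3 : M.sim (u i) a (x j) := by
            rcases h1 a (x j) with h | h
            · exact h _ (hu i)
            · exact absurd e2 (h _ (hv j))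
          have := hd _ (hu i) _ _ ((M.sim_equiv _).trans e1 e3)
          exact hj (this ▸ hi)
      · exact h5.2.2 _ _ _ (hv i) ⟨ha, hv' i⟩)
    refine ⟨d, fun i => ⟨fun h => ?_, fun h => ?_⟩⟩
    · by_contra hi
      have e := (hd' (x i)).2 (v i) (Or.inr ⟨i, hi, rfl⟩) (hv' i)
      rcases h2 (x i) d with h' | h'
      · exact e (h' _ (hv i))
      · exact h' _ (hu 0) h
    · have e := (hd' (x i)).1 (u i) (Or.inl ⟨i, h, rfl⟩) (hu' i)
      rcases h2 (x i) d with h' | h'
      · exact h' _ (hu 0)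
      · exact absurd e (h' _ (hu i))
  choose c hc' using key
  have hinj : Function.Injective c := by
    intro X Y h
    ext i
    rw [← hc' X i, ← hc' Y i, h]
  have : Countable (Set ℕ) := hinj.countable
  obtain ⟨e, he⟩ := exists_surjective_nat (Set ℕ)
  exact Function.cantor_surjective e he

end sem

def M0 : Model sg where
  W := ℕ × Bool
  D := ℕ ⊕ Set ℕ
  neW := inferInstance
  neD := inferInstance
  P := fun w p => match p with
    | .N => fun a => ∃ n, a (0 : Fin 1) = Sum.inl n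
    | .A => fun a => w.2 = true ∧ a (0 : Fin 1) = Sum.inl w.1
    | .B => fun a => w.2 = false ∧ a (0 : Fin 1) = Sum.inl w.1
    | .E => fun a => ∃ n X, a (0 : Fin 2) = Sum.inl n ∧ a (1 : Fin 2) = Sum.inr X ∧ n ∈ X
  F := fun _ f => match f with
    | .z => fun _ => Sum.inl 0
    | .S => fun a => Sum.map Nat.succ id (a (0 : Fin 1))
  rigid_eq := fun _ _ _ _ => rfl
  sim := fun _ => Eq
  sim_equiv := fun _ => eq_equivalence
  P_congr := fun w p a b h => by rw [funext h]
  F_congr := fun w f a b h => by rw [funext h]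

theorem refuted (g : ℕ → M0.D) : ¬ Supports M0 phi Set.univ g := by
  intro h
  have := h Set.univ subset_rfl ⟨?_, ?_, ?_, ?_, ?_, ?_⟩
  · rw [schi] at this
    obtain ⟨a, ha, hb⟩ := this
    obtain ⟨n, hn⟩ := ha (0, true) trivial
    rcases hb with hb | hb
    · exact hb (n, true) trivial ⟨rfl, hn⟩
    · exact hb (n, false) trivial ⟨rfl, hn⟩
  · rw [s1]
    intro a b
    by_cases hab : a = b
    · exact Or.inl fun _ _ => hab
    · exact Or.inr fun _ _ => hab
  · rw [s2]
    intro a b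
    by_cases hab : pE M0 (0, true) a b
    · exact Or.inl fun _ _ => hab
    · exact Or.inr fun _ _ => hab
  · rw [s3]
    refine ⟨fun _ _ => ⟨0, rfl⟩, ?_⟩
    rintro a w _ ⟨n, hn⟩
    have hn' : a = Sum.inl n := hn
    subst hn'
    exact ⟨n + 1, rfl⟩
  · rw [s4]
    refine ⟨?_, ?_⟩
    · intro a w _ h
      have h' : Sum.map Nat.succ id a = (Sum.inl 0 : ℕ ⊕ Set ℕ) := h
      cases a <;> simp at h'
    · intro a b w _ h
      have h' : Sum.map Nat.succ id a = (Sum.map Nat.succ id b : ℕ ⊕ Set ℕ) := h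
      exact (Nat.succ_injective.sumMap Function.injective_id) h'
  · rw [s5]
    refine ⟨?_, ?_, ?_⟩
    · rintro a b w _ ⟨h1, h2⟩
      exact h1.2.trans h2.2.symm
    · rintro a b w _ ⟨h1, h2⟩
      exact h1.2.trans h2.2.symm
    · rintro a b w _ ⟨h1, h2⟩
      exact absurd (h1.1.symm.trans h2.1) (by decide)
  · rw [s6]
    intro t _ ht
    refine ⟨Sum.inr {n | (n, true) ∈ t}, fun a => ⟨?_, ?_⟩⟩
    · rintro ⟨n, b⟩ hw ⟨h1, h2⟩
      have h1' : b = true := h1
      subst h1'
      exact ⟨n, _, h2, rfl, hw⟩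
    · rintro ⟨n, b⟩ hw hB ⟨m, X, e1, e2, e3⟩
      have e1' : a = Sum.inl m := e1
      have e2' : (Sum.inr {n | (n, true) ∈ t} : ℕ ⊕ Set ℕ) = Sum.inr X := e2
      have e4 : X = {n | (n, true) ∈ t} := (Sum.inr_injective e2').symm
      subst e4
      rcases ht a with h | h
      · exact h (m, true) e3 ⟨rfl, e1'⟩
      · exact h _ hw hB

theorem result :
    ∃ (σ : Signature) (φ : Formula σ),
      (∃ (M : Model σ) (s : Set M.W) (g : ℕ → M.D), ¬ Supports M φ s g) ∧
      ∀ M : Model σ, Countable M.D → ∀ (s : Set M.W) (g : ℕ → M.D), Supports M φ s g :=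
  ⟨sg, phi, ⟨M0, Set.univ, fun _ => Sum.inl 0, refuted _⟩,
    fun M _ s g => valid_countable M s g⟩

end Pool.Agent.Results.MP_130315_lc.Uncountable
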